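import Mathlib

set_option autoImplicit false

namespace Pool.Agent.Results.MP_8fb7e7_co.UpperDirectedDomination

universe u

/-- An `r`-uniform hypergraph on the vertex set `V`: a finite set of `r`-element subsets of `V`. -/
structure UniformHypergraph (V : Type u) (r : ℕ) where
  /-- the edges -/
  edges : Finset (Finset V)
  /-- every edge has exactly `r` elements -/
  uniform : ∀ e ∈ edges, e.card = r

variable {V : Type u} {r : ℕ}

/-- An orientation assigns to every edge one of its `r!` linear orderings, given as a bijection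
from the positions `0, …, r-1` to the vertices of the edge. -/
def Orientation (H : UniformHypergraph V r) : Type u :=
  ∀ e : {e : Finset V // e ∈ H.edges}, Fin r ≃ {x : V // x ∈ e.1}

/-- `S` is a directed `p`-dominating set of the orientation `D`: every vertex `u` outside `S` lies
in some edge whose first `p` vertices (positions `0, …, p-1`) all belong to `S`. -/
def IsDirDominating (H : UniformHypergraph V r) (D : Orientation H) (p : ℕ)
    (S : Finset V) : Prop :=
  ∀ u : V, u ∉ S → ∃ e : {e : Finset V // e ∈ H.edges}, u ∈ e.1 ∧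
    ∀ i : Fin r, (i : ℕ) < p → ((D e i : {x : V // x ∈ e.1}) : V) ∈ S

/-- The minimum size of a directed `p`-dominating set of `D`. -/
noncomputable def dirDomNumber (H : UniformHypergraph V r) (D : Orientation H) (p : ℕ) : ℕ :=
  sInf {k : ℕ | ∃ S : Finset V, IsDirDominating H D p S ∧ S.card = k}

/-- The upper directed `p`-domination number: the maximum of `dirDomNumber` over all
orientations. -/
noncomputable def upperDirDomNumber (H : UniformHypergraph V r) (p : ℕ) : ℕ :=
  sSup {k : ℕ | ∃ D : Orientation H, dirDomNumber H D p = k}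

/-- A set of vertices is independent if it contains no edge. -/
def IsIndep (H : UniformHypergraph V r) (S : Finset V) : Prop :=
  ∀ e ∈ H.edges, ¬ e ⊆ S

/-- The independence number: the largest size of an independent set. -/
noncomputable def indepNumber (H : UniformHypergraph V r) : ℕ :=
  sSup {k : ℕ | ∃ S : Finset V, IsIndep H S ∧ S.card = k}

/-! ### Basic facts -/

section basic

variable [Fintype V]

lemma indep_card_le (H : UniformHypergraph V r) {S : Finset V} (hS : IsIndep H S) :
    S.card ≤ indepNumber H := by
  apply le_csSup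
  · refine ⟨Fintype.card V, ?_⟩
    rintro k ⟨T, _, rfl⟩
    exact Finset.card_le_univ T
  · exact ⟨S, hS, rfl⟩

lemma indepNumber_pos (H : UniformHypergraph V r) (hr : 2 ≤ r) (hV : 1 ≤ Fintype.card V) :
    1 ≤ indepNumber H := by
  classical
  have : Nonempty V := Fintype.card_pos_iff.mp hV
  obtain ⟨v⟩ := this
  have h : IsIndep H ({v} : Finset V) := by
    intro e he hsub
    have h1 := H.uniform e he
    have h2 := Finset.card_le_card hsub
    simp at h2
    omega
  simpa using indep_card_le H h

lemma univ_dominating (H : UniformHypergraph V r) (D : Orientation H) (p : ℕ) :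
    IsDirDominating H D p Finset.univ := by
  intro u hu
  exact absurd (Finset.mem_univ u) hu

lemma dirDomNumber_le (H : UniformHypergraph V r) (D : Orientation H) (p : ℕ) {S : Finset V}
    (hS : IsDirDominating H D p S) : dirDomNumber H D p ≤ S.card :=
  Nat.sInf_le ⟨S, hS, rfl⟩

/-- Sanity check: the minimum defining `dirDomNumber` is attained. -/
lemma dirDomNumber_isLeast (H : UniformHypergraph V r) (D : Orientation H) (p : ℕ) :
    IsLeast {k : ℕ | ∃ S : Finset V, IsDirDominating H D p S ∧ S.card = k}
      (dirDomNumber H D p) :=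
  ⟨Nat.sInf_mem ⟨_, Finset.univ, univ_dominating H D p, rfl⟩, fun _ hk => Nat.sInf_le hk⟩

/-- Sanity check: the maximum defining `indepNumber` is attained. -/
lemma indepNumber_isGreatest (H : UniformHypergraph V r) (hr : 1 ≤ r) :
    IsGreatest {k : ℕ | ∃ S : Finset V, IsIndep H S ∧ S.card = k} (indepNumber H) := by
  have hne : {k : ℕ | ∃ S : Finset V, IsIndep H S ∧ S.card = k}.Nonempty := by
    refine ⟨0, ∅, ?_, rfl⟩
    intro e he hsub
    have h1 := H.uniform e he
    rw [Finset.subset_empty.mp hsub] at h1
    simp at h1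
    omega
  have hbdd : BddAbove {k : ℕ | ∃ S : Finset V, IsIndep H S ∧ S.card = k} := by
    refine ⟨Fintype.card V, ?_⟩
    rintro k ⟨S, _, rfl⟩
    exact Finset.card_le_univ S
  exact ⟨Nat.sSup_mem hne hbdd, fun _ hk => le_csSup hbdd hk⟩

/-- Sanity check: there is an orientation and the maximum defining `upperDirDomNumber` is
attained. -/
lemma upperDirDomNumber_isGreatest (H : UniformHypergraph V r) (p : ℕ) :
    IsGreatest {k : ℕ | ∃ D : Orientation H, dirDomNumber H D p = k} (upperDirDomNumber H p) := by
  have hbdd : BddAbove {k : ℕ | ∃ D : Orientation H, dirDomNumber H D p = k} := by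
    refine ⟨Fintype.card V, ?_⟩
    rintro k ⟨D, rfl⟩
    have := dirDomNumber_le H D p (univ_dominating H D p)
    simpa using this
  have hD : Nonempty (Orientation H) := by
    refine ⟨fun e => (Finset.equivFinOfCardEq (H.uniform e.1 e.2)).symm⟩
  obtain ⟨D⟩ := hD
  exact ⟨Nat.sSup_mem ⟨_, D, rfl⟩ hbdd, fun _ hk => le_csSup hbdd hk⟩

end basic

/-! ### Relative domination -/

section relative

variable [Fintype V] [DecidableEq V]

/-- `x` is dominated by `S` in the orientation `D`. -/
def Dom (H : UniformHypergraph V r) (D : Orientation H) (p : ℕ) (S : Finset V) (x : V) : Prop :=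
  ∃ e : {e : Finset V // e ∈ H.edges}, x ∈ e.1 ∧
    ∀ i : Fin r, (i : ℕ) < p → ((D e i : {x : V // x ∈ e.1}) : V) ∈ S

lemma Dom.mono {H : UniformHypergraph V r} {D : Orientation H} {p : ℕ} {S T : Finset V} {x : V}
    (h : Dom H D p S x) (hST : S ⊆ T) : Dom H D p T x := by
  obtain ⟨e, hx, hi⟩ := h
  exact ⟨e, hx, fun i hip => hST (hi i hip)⟩

open Classical in
/-- In every set `T`, the elements `x` of `T` that are not dominated by `T \ {x}` form an
independent set. -/
lemma undominated_indep (H : UniformHypergraph V r) (D : Orientation H) {p : ℕ} (hp : p < r)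
    (T : Finset V) :
    IsIndep H (T.filter (fun x => ¬ Dom H D p (T.erase x) x)) := by
  intro e he hsub
  -- the last vertex of the edge
  let last : Fin r := ⟨r - 1, by omega⟩
  let y : {x : V // x ∈ e} := D ⟨e, he⟩ last
  have hy : (y : V) ∈ e := y.2
  have hyT := hsub hy
  rw [Finset.mem_filter] at hyT
  apply hyT.2
  refine ⟨⟨e, he⟩, hy, ?_⟩
  intro i hi
  rw [Finset.mem_erase]
  constructor
  · intro heq
    have h1 : D ⟨e, he⟩ i = y := Subtype.ext heq
    have h2 : i = last := (D ⟨e, he⟩).injective h1
    have h3 : (i : ℕ) = r - 1 := by rw [h2]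
    omega
  · have h4 : ((D ⟨e, he⟩ i : {x : V // x ∈ e}) : V) ∈ e := (D ⟨e, he⟩ i).2
    exact (Finset.mem_filter.mp (hsub h4)).1

open Classical in
lemma undominated_card (H : UniformHypergraph V r) (D : Orientation H) {p : ℕ} (hp : p < r)
    (T : Finset V) :
    (T.filter (fun x => ¬ Dom H D p (T.erase x) x)).card ≤ indepNumber H :=
  indep_card_le H (undominated_indep H D hp T)

/-- Double counting of pairs (set, point of the set) and (set, point outside the set). -/
lemma double_count (U : Finset V) (k : ℕ) (P : Finset V → V → Prop) [∀ S x, Decidable (P S x)] :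
    ∑ T ∈ U.powersetCard (k + 1), (T.filter (fun x => P (T.erase x) x)).card =
      ∑ S ∈ U.powersetCard k, ((U \ S).filter (fun x => P S x)).card := by
  simp only [← Finset.card_sigma]
  refine Finset.card_bij' (fun a _ => (⟨a.1.erase a.2, a.2⟩ : (_ : Finset V) × V))
    (fun b _ => (⟨insert b.2 b.1, b.2⟩ : (_ : Finset V) × V)) ?_ ?_ ?_ ?_
  · rintro ⟨T, x⟩ h
    simp only [Finset.mem_sigma, Finset.mem_powersetCard, Finset.mem_filter,
      Finset.mem_sdiff] at h ⊢
    obtain ⟨⟨hTU, hTc⟩, hxT, hP⟩ := h
    refine ⟨⟨(Finset.erase_subset _ _).trans hTU, ?_⟩, ⟨hTU hxT, by simp⟩, hP⟩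
    rw [Finset.card_erase_of_mem hxT, hTc]; rfl
  · rintro ⟨S, x⟩ h
    simp only [Finset.mem_sigma, Finset.mem_powersetCard, Finset.mem_filter,
      Finset.mem_sdiff] at h ⊢
    obtain ⟨⟨hSU, hSc⟩, ⟨hxU, hxS⟩, hP⟩ := h
    refine ⟨⟨?_, ?_⟩, by simp, ?_⟩
    · intro y hy
      rcases Finset.mem_insert.mp hy with rfl | hy
      · exact hxU
      · exact hSU hy
    · rw [Finset.card_insert_of_notMem hxS, hSc]
    · rwa [Finset.erase_insert hxS]
  · rintro ⟨T, x⟩ h
    simp only [Finset.mem_sigma, Finset.mem_powersetCard, Finset.mem_filter] at h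
    simp [Finset.insert_erase h.2.1]
  · rintro ⟨S, x⟩ h
    simp only [Finset.mem_sigma, Finset.mem_powersetCard, Finset.mem_filter,
      Finset.mem_sdiff] at h
    simp [Finset.erase_insert h.2.1.2]

open Classical in
/-- One greedy step: if `|U| ≥ 2a`, where `a` is the independence number, then some set
of `2a-1` vertices of `U` leaves at most half of the other vertices of `U` undominated. -/
lemma greedy_step (H : UniformHypergraph V r) (D : Orientation H) {p : ℕ} (hp : p < r)
    (ha : 1 ≤ indepNumber H) (U : Finset V) (hU : 2 * indepNumber H ≤ U.card) :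
    ∃ S ⊆ U, S.card = 2 * indepNumber H - 1 ∧
      2 * ((U \ S).filter (fun x => ¬ Dom H D p S x)).card ≤ U.card + 1 - 2 * indepNumber H := by
  set a := indepNumber H with ha_def
  by_contra hcon
  push Not at hcon
  have hk : 2 * a - 1 + 1 = 2 * a := by omega
  have hdc := double_count U (2 * a - 1) (fun S x => ¬ Dom H D p S x)
  rw [hk] at hdc
  have hle : ∑ T ∈ U.powersetCard (2 * a), (T.filter (fun x => ¬ Dom H D p (T.erase x) x)).card
      ≤ (U.card.choose (2 * a)) * a := by
    calc _ ≤ ∑ T ∈ U.powersetCard (2 * a), a :=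
          Finset.sum_le_sum (fun T _ => undominated_card H D hp T)
      _ = _ := by rw [Finset.sum_const, Finset.card_powersetCard, smul_eq_mul]
  have hne : (U.powersetCard (2 * a - 1)).Nonempty :=
    Finset.powersetCard_nonempty.mpr (by omega)
  have hlt : ∑ S ∈ U.powersetCard (2 * a - 1), (U.card + 1 - 2 * a) <
      ∑ S ∈ U.powersetCard (2 * a - 1),
        2 * ((U \ S).filter (fun x => ¬ Dom H D p S x)).card := by
    apply Finset.sum_lt_sum_of_nonempty hne
    intro S hS
    rw [Finset.mem_powersetCard] at hS
    exact hcon S hS.1 hS.2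
  rw [← Finset.mul_sum, ← hdc, Finset.sum_const, Finset.card_powersetCard, smul_eq_mul] at hlt
  have hch : U.card.choose (2 * a) * (2 * a) = U.card.choose (2 * a - 1) * (U.card + 1 - 2 * a) := by
    have := Nat.choose_succ_right_eq U.card (2 * a - 1)
    rw [hk] at this
    rw [this]
    congr 1
    omega
  have : 2 * (U.card.choose (2 * a) * a) = U.card.choose (2 * a) * (2 * a) := by ring
  omega

open Classical in
/-- The main greedy bound, in relative form. -/
lemma greedy_bound (H : UniformHypergraph V r) (D : Orientation H) {p : ℕ} (hp : p < r)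
    (ha : 1 ≤ indepNumber H) :
    ∀ m : ℕ, ∀ U : Finset V, U.card = m → 1 ≤ m →
      ∃ S ⊆ U, (∀ x ∈ U, x ∉ S → Dom H D p S x) ∧
        (S.card : ℝ) ≤ 2 * (indepNumber H : ℝ) * (1 + Real.logb 2 m) := by
  intro m
  induction m using Nat.strong_induction_on with
  | _ m ih =>
    intro U hUm hm
    have ha' : (1 : ℝ) ≤ (indepNumber H : ℝ) := by exact_mod_cast ha
    have hm' : (1 : ℝ) ≤ (m : ℝ) := by exact_mod_cast hm
    have hlog : 0 ≤ Real.logb 2 (m : ℝ) := Real.logb_nonneg (by norm_num) hm'
    by_cases hsmall : m < 2 * indepNumber H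
    · refine ⟨U, Finset.Subset.refl U, fun x hx hx' => absurd hx hx', ?_⟩
      have h1 : (U.card : ℝ) ≤ 2 * (indepNumber H : ℝ) := by
        rw [hUm]; exact_mod_cast hsmall.le
      nlinarith
    · push Not at hsmall
      obtain ⟨S, hSU, hSc, hhalf⟩ := greedy_step H D hp ha U (by omega)
      set U' := (U \ S).filter (fun x => ¬ Dom H D p S x) with hU'
      have hU'U : U' ⊆ U := (Finset.filter_subset _ _).trans Finset.sdiff_subset
      have hSc' : (S.card : ℝ) ≤ 2 * (indepNumber H : ℝ) - 1 := by
        rw [hSc]
        have : ((2 * indepNumber H - 1 : ℕ) : ℝ) = 2 * (indepNumber H : ℝ) - 1 := by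
          rw [Nat.cast_sub (by omega)]; push_cast; ring
        rw [this]
      by_cases h0 : U'.card = 0
      · refine ⟨S, hSU, ?_, ?_⟩
        · intro x hx hxS
          by_contra hnd
          have : x ∈ U' := by
            rw [hU', Finset.mem_filter, Finset.mem_sdiff]
            exact ⟨⟨hx, hxS⟩, hnd⟩
          rw [Finset.card_eq_zero] at h0
          rw [h0] at this
          simp at this
        · nlinarith
      · have hlt : U'.card < m := by omega
        obtain ⟨S', hS'U', hdom', hcard'⟩ := ih U'.card hlt U' rfl (by omega)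
        refine ⟨S ∪ S', Finset.union_subset hSU (hS'U'.trans hU'U), ?_, ?_⟩
        · intro x hx hxSS
          rw [Finset.mem_union, not_or] at hxSS
          by_cases hxd : Dom H D p S x
          · exact hxd.mono Finset.subset_union_left
          · have hxU' : x ∈ U' := by
              rw [hU', Finset.mem_filter, Finset.mem_sdiff]
              exact ⟨⟨hx, hxSS.1⟩, hxd⟩
            exact (hdom' x hxU' hxSS.2).mono Finset.subset_union_right
        · have hun : ((S ∪ S').card : ℝ) ≤ S.card + S'.card := by
            exact_mod_cast Finset.card_union_le S S'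
          have hpos : (0 : ℝ) < (U'.card : ℝ) := by
            exact_mod_cast Nat.pos_of_ne_zero h0
          have h2 : 2 * (U'.card : ℝ) ≤ (m : ℝ) := by
            have : 2 * U'.card ≤ m := by omega
            exact_mod_cast this
          have hlog2 : Real.logb 2 (U'.card : ℝ) + 1 ≤ Real.logb 2 (m : ℝ) := by
            have h3 : Real.logb 2 (2 * (U'.card : ℝ)) ≤ Real.logb 2 (m : ℝ) :=
              Real.logb_le_logb_of_le (by norm_num) (by positivity) h2
            rw [Real.logb_mul (by norm_num) hpos.ne', Real.logb_self_eq_one (by norm_num)] at h3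
            linarith
          nlinarith

end relative

/-- **Main theorem.** For all `1 ≤ p ≤ r - 1` and every `r`-uniform hypergraph `H` of order `n ≥ 2`,
the upper directed `p`-domination number of `H` is at most `6 α(H) ln n`. -/
theorem result (r p : ℕ) (hp1 : 1 ≤ p) (hpr : p ≤ r - 1)
    (V : Type u) [Fintype V] (H : UniformHypergraph V r) (hn : 2 ≤ Fintype.card V) :
    (upperDirDomNumber H p : ℝ) ≤ 6 * (indepNumber H : ℝ) * Real.log (Fintype.card V) := by
  classical
  have hr : 2 ≤ r := by omega
  have ha : 1 ≤ indepNumber H := indepNumber_pos H hr (by omega)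
  have ha' : (1 : ℝ) ≤ (indepNumber H : ℝ) := by exact_mod_cast ha
  have hn' : (2 : ℝ) ≤ (Fintype.card V : ℝ) := by exact_mod_cast hn
  have hlog2pos : (0 : ℝ) < Real.log 2 := Real.log_pos (by norm_num)
  have hlog2 : (0.6931471803 : ℝ) < Real.log 2 := Real.log_two_gt_d9
  have hlogn : Real.log 2 ≤ Real.log (Fintype.card V) := Real.log_le_log (by norm_num) hn'
  -- the bound for each orientation
  have key : ∀ D : Orientation H, (dirDomNumber H D p : ℝ) ≤
      6 * (indepNumber H : ℝ) * Real.log (Fintype.card V) := by
    intro D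
    obtain ⟨S, _, hdom, hcard⟩ := greedy_bound H D (p := p) (by omega) ha
      (Fintype.card V) Finset.univ Finset.card_univ (by omega)
    have hS : IsDirDominating H D p S := fun u hu => hdom u (Finset.mem_univ u) hu
    have h1 : (dirDomNumber H D p : ℝ) ≤ S.card := by exact_mod_cast dirDomNumber_le H D p hS
    refine h1.trans (hcard.trans ?_)
    have h2 : 1 + Real.logb 2 (Fintype.card V) ≤ 3 * Real.log (Fintype.card V) := by
      rw [Real.logb, ← sub_nonneg]
      have h3 : 1 ≤ Real.log (Fintype.card V) / Real.log 2 := by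
        rw [le_div_iff₀ hlog2pos]; linarith
      have h4 : Real.log (Fintype.card V) / Real.log 2 ≤ 1.5 * Real.log (Fintype.card V) := by
        rw [div_le_iff₀ hlog2pos]
        nlinarith
      linarith
    nlinarith
  -- the supremum over orientations is attained by some orientation, or the set is empty
  unfold upperDirDomNumber
  by_cases hne : {k : ℕ | ∃ D : Orientation H, dirDomNumber H D p = k}.Nonempty
  · have hbdd : BddAbove {k : ℕ | ∃ D : Orientation H, dirDomNumber H D p = k} := by
      refine ⟨Fintype.card V, ?_⟩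
      rintro k ⟨D, rfl⟩
      have := dirDomNumber_le H D p (univ_dominating H D p)
      simpa using this
    obtain ⟨D, hD⟩ := Nat.sSup_mem hne hbdd
    rw [← hD]
    exact key D
  · rw [Set.not_nonempty_iff_eq_empty] at hne
    rw [hne]
    have : (0 : ℝ) ≤ 6 * (indepNumber H : ℝ) * Real.log (Fintype.card V) := by
      have : 0 ≤ Real.log (Fintype.card V) := by linarith
      positivity
    simpa using this

end Pool.Agent.Results.MP_8fb7e7_co.UpperDirectedDomination
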